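import Pool.Agent.Q202.RS.Arith

/-!
# Nonempty closed sums of exotic classes are not fixed: evaluation
-/

set_option autoImplicit false
set_option linter.unusedSectionVars false

namespace Pool.Agent.Q202.RS

open Finset NumberField Pool.Agent.H180.RS Pool.Agent.H916R2 Pool.Agent.Q59.FS Pool.Agent.Q59.RL

section Eval

variable {K : Type} [Field K] [NumberField K] {m : ℕ} [NeZero m] {σ : K →+* ℂ} {ℓ : ℕ}
  [hl : Fact ℓ.Prime] {χ : MulChar (ZMod ℓ) ℂ} {ψ : AddChar (ZMod ℓ) ℂ} {φ : 𝓞 K →+* ZMod ℓ}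

/-- the datum -/
def mkD (hφ : Function.Surjective φ) (hχ : IsSymbol m σ φ χ) (hψ : ψ ≠ 1) : Datum m σ where
  F := ZMod ℓ
  φ := φ
  surj := hφ
  χ := χ
  sym := hχ
  ψ := ψ
  hψ := hψ

lemma gm_single (hφ : Function.Surjective φ) (hχ : IsSymbol m σ φ χ) (hψ : ψ ≠ 1)
    {z : ZMod m × 𝓞 K} (hz : χ (φ z.2) = 1) :
    gm (mkD hφ hχ hψ) {z} = nz ψ (χ ^ z.1.val) := by
  have h1 : gm (mkD hφ hχ hψ) {z} = gaussSum (χ ^ z.1.val) ψ / (χ ^ z.1.val) (φ z.2) /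
      ((Real.sqrt (Fintype.card (ZMod ℓ)) : ℝ) : ℂ) ^ (1 : ℕ) := by
    unfold gm BB bet rt mkD
    simp
  rw [h1, pow_one, ZMod.card]
  have hu : IsUnit (φ z.2) := by
    by_contra hcon
    rw [MulChar.map_nonunit χ hcon] at hz
    exact zero_ne_one hz
  have h2 : (χ ^ z.1.val) (φ z.2) = 1 := by
    obtain ⟨u, hu⟩ := hu
    rw [← hu] at hz ⊢
    rw [MulChar.pow_apply_coe, hz, one_pow]
  rw [h2, div_one]
  rfl

lemma toU_gm (hφ : Function.Surjective φ) (hχ : IsSymbol m σ φ χ) (hψ : ψ ≠ 1)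
    (hc : OddDist (cD (m := m) χ ψ)) (s : Multiset (ZMod m × 𝓞 K)) (h0 : ∀ z ∈ s, z.1 ≠ 0)
    (h1 : ∀ z ∈ s, χ (φ z.2) = 1) :
    toU (gm (mkD hφ hχ hψ) s) = lft (cD (m := m) χ ψ) hc (clU (s.map Prod.fst)).1 := by
  have hne : ∀ z : ZMod m × 𝓞 K, χ (φ z.2) = 1 → φ z.2 ≠ 0 := by
    intro z hz h
    rw [h, MulChar.map_zero] at hz
    exact zero_ne_one hz
  induction s using Multiset.induction_on with
  | empty =>
    rw [gm_zero, toU_one]
    unfold clU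
    simp
  | cons z s ih =>
    have e1 : (z ::ₘ s) = {z} + s := rfl
    have hz0 := h0 z (Multiset.mem_cons_self z s)
    have hz1 := h1 z (Multiset.mem_cons_self z s)
    have hs0 : ∀ w ∈ s, w.1 ≠ 0 := fun w hw => h0 w (Multiset.mem_cons_of_mem hw)
    have hs1 : ∀ w ∈ s, χ (φ w.2) = 1 := fun w hw => h1 w (Multiset.mem_cons_of_mem hw)
    have n1 : gm (mkD hφ hχ hψ) {z} ≠ 0 := gm_ne
      (fun w hw => by rw [Multiset.mem_singleton.mp hw]; exact hz0)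
      (fun w hw => by rw [Multiset.mem_singleton.mp hw]; exact hne z hz1)
    have n2 : gm (mkD hφ hχ hψ) s ≠ 0 := gm_ne hs0 (fun w hw => hne w (hs1 w hw))
    have e2 : (clU ((z ::ₘ s).map Prod.fst)).1 = cU m z.1 + (clU (s.map Prod.fst)).1 := by
      unfold clU
      simp
    rw [e2, map_add, lft_cU, e1, gm_add, toU_mul n1 n2, ih hs0 hs1, gm_single hφ hχ hψ hz1]
    congr 1
    unfold cD
    rw [if_neg hz0]

lemma lft_Xc (hc : OddDist (cD (m := m) χ ψ)) (p q : ℕ) [Fact p.Prime] [Fact q.Prime] :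
    lft (cD (m := m) χ ψ) hc (Xc m p q (cU m)) = Xc m p q (cD (m := m) χ ψ) := by
  unfold Xc
  rw [XX_map]
  congr 1
  funext a
  exact lft_cU _ hc a

end Eval

section Parity

open scoped Classical in
/-- products over closed sets -/
lemma prod_closed {m : ℕ} {E : Finset (ℕ × ℕ)} (hE : E ⊆ prs m) (hcl : Closed m E)
    (w : ℕ → ℂ) (hw : ∀ p ∈ m.primeFactors, w p ^ 2 = 1) (T : Finset (ℕ × ℕ)) (hT : T ⊆ E)
    (hT' : ∀ e ∈ E, (e ∈ T ↔ ¬ IsSquare ((e.1 : ℕ) : ZMod e.2)))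
    (hT'' : ∀ e ∈ E, (e ∈ T ↔ ¬ IsSquare ((e.2 : ℕ) : ZMod e.1))) :
    ∏ e ∈ T, w e.1 * w e.2 = 1 := by
  have hmem : ∀ e ∈ E, e.1 ∈ m.primeFactors ∧ e.2 ∈ m.primeFactors ∧ e.1 < e.2 := by
    intro e he
    have h1 := hE he
    unfold prs at h1
    rw [mem_filter, mem_product] at h1
    exact ⟨h1.1.1, h1.1.2, h1.2⟩
  have e1 : ∏ e ∈ T, w e.1 = ∏ r ∈ m.primeFactors, w r ^ (T.filter fun e => e.1 = r).card := by
    rw [← prod_fiberwise_of_maps_to (s := T) (t := m.primeFactors) (g := fun e => e.1)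
      (fun e he => (hmem e (hT he)).1)]
    refine prod_congr rfl fun r _ => ?_
    rw [prod_congr rfl fun e he => by rw [(mem_filter.mp he).2], prod_const]
  have e2 : ∏ e ∈ T, w e.2 = ∏ r ∈ m.primeFactors, w r ^ (T.filter fun e => e.2 = r).card := by
    rw [← prod_fiberwise_of_maps_to (s := T) (t := m.primeFactors) (g := fun e => e.2)
      (fun e he => (hmem e (hT he)).2.1)]
    refine prod_congr rfl fun r _ => ?_
    rw [prod_congr rfl fun e he => by rw [(mem_filter.mp he).2], prod_const]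
  rw [prod_mul_distrib, e1, e2, ← prod_mul_distrib]
  refine prod_eq_one fun r hr => ?_
  rw [← pow_add]
  have h3 : (T.filter fun e => e.1 = r).card + (T.filter fun e => e.2 = r).card =
      (E.filter fun e => (e.1 = r ∧ ¬ IsSquare ((e.2 : ℕ) : ZMod r)) ∨
    (e.2 = r ∧ ¬ IsSquare ((e.1 : ℕ) : ZMod r))).card := by
    rw [← card_union_of_disjoint]
    · congr 1
      ext e
      rw [mem_union, mem_filter, mem_filter, mem_filter]
      constructor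
      · rintro (⟨h1, rfl⟩ | ⟨h1, rfl⟩)
        · exact ⟨hT h1, Or.inl ⟨rfl, (hT'' e (hT h1)).mp h1⟩⟩
        · exact ⟨hT h1, Or.inr ⟨rfl, (hT' e (hT h1)).mp h1⟩⟩
      · rintro ⟨h1, ⟨rfl, h2⟩ | ⟨rfl, h2⟩⟩
        · exact Or.inl ⟨(hT'' e h1).mpr h2, rfl⟩
        · exact Or.inr ⟨(hT' e h1).mpr h2, rfl⟩
    · rw [disjoint_left]
      intro e he he'
      have h1 := mem_filter.mp he
      have h2 := mem_filter.mp he'
      have h4 := (hmem e (hT h1.1)).2.2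
      omega
  have h4 : Even ((T.filter fun e => e.1 = r).card + (T.filter fun e => e.2 = r).card) := by
    rw [h3]
    exact hcl r hr
  obtain ⟨k, hk⟩ := h4
  rw [hk, ← two_mul, pow_mul, hw r hr, one_pow]

end Parity

section Value

variable {ℓ : ℕ} [hl : Fact ℓ.Prime]

open scoped Classical in
lemma Dat.value (hS : PropEvS) (hT : PropEvT) {t : ℕ} {e : ℕ × ℕ} {A D x y z : ℤ}
    (h : Dat t e A D x y z) (he : Pr t e) (ht : t.Prime) (ht4 : t % 4 = 1) (hl8 : ℓ % 8 = 1)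
    (al : ℕ → MulChar (ZMod ℓ) ℂ) (ψ : AddChar (ZMod ℓ) ℂ) (hψ : ψ ≠ 1)
    (ho1 : orderOf (al e.1) = e.1) (ho2 : orderOf (al e.2) = e.2) (hot : orderOf (al t) = t)
    (s1 : ev e.1 e.2 ψ (al e.1) (al e.2) ^ 2 = 1) (s2 : ev e.1 t ψ (al e.1) (al t) ^ 2 = 1)
    (s3 : ev e.2 t ψ (al e.2) (al t) ^ 2 = 1)
    (c1 : ev e.2 e.1 ψ (al e.2) (al e.1) = ev e.1 e.2 ψ (al e.1) (al e.2))
    (c2 : ev t e.1 ψ (al t) (al e.1) = ev e.1 t ψ (al e.1) (al t))
    (c3 : ev t e.2 ψ (al t) (al e.2) = ev e.2 t ψ (al e.2) (al t))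
    (hz : ¬ (ℓ : ℤ) ∣ z) (r : ZMod ℓ) (hr : r ^ 2 = (A : ZMod ℓ))
    (hsym : IsSquare ((e.1 : ℕ) : ZMod e.2) ↔ IsSquare ((e.2 : ℕ) : ZMod e.1)) :
    ((quadraticChar (ZMod ℓ) ((x : ZMod ℓ) + y * r) : ℤ) : ℂ) =
      ev e.1 e.2 ψ (al e.1) (al e.2) *
        (if IsSquare ((e.1 : ℕ) : ZMod e.2) then 1 else
          (ev e.1 t ψ (al e.1) (al t) * ev e.2 t ψ (al e.2) (al t))) := by
  obtain ⟨p, q, hpq, hp, hq, hp2, hne, hpt, hqt, hsp, hsq, hq4, hco, hz0, h1⟩ := h.pq he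
  have hq2 : q ≠ 2 := by rintro rfl; omega
  have key : orderOf (al p) = p → orderOf (al q) = q → ev p q ψ (al p) (al q) ^ 2 = 1 →
      ev p t ψ (al p) (al t) ^ 2 = 1 → ev t q ψ (al t) (al q) ^ 2 = 1 →
      ((quadraticChar (ZMod ℓ) ((x : ZMod ℓ) + y * r) : ℤ) : ℂ) =
      ev p q ψ (al p) (al q) *
        (if IsSquare ((p : ℕ) : ZMod q) then 1 else
          (ev p t ψ (al p) (al t) * ev t q ψ (al t) (al q))) := by
    intro o1 o2 a1 a2 a3
    rcases h1 with ⟨hs, rfl, rfl, h2⟩ | ⟨hs, rfl, rfl, h2⟩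
    · rw [if_pos hs, mul_one]
      exact (hS ℓ p q hp hq hp2 hq2 hne hl8 _ _ ψ hψ o1 o2 a1 hq4 hs x y z hco hz0 hz h2 r
        hr).symm
    · rw [if_neg hs]
      have h3 := hT ℓ p q t hp hq ht hp2 hne hpt hqt hq4 ht4 hs hsp hsq hl8 _ _ _ ψ hψ o1 o2 hot
        a1 a2 a3 x y z hco hz0 hz h2 r hr
      rw [← h3]
      ring
  rcases hpq with rfl | rfl
  · have := key ho1 ho2 s1 s2 (by rw [c3]; exact s3)
    rw [this, c3]
  · have := key ho2 ho1 (by rw [c1]; exact s1) s3 (by rw [c2]; exact s2)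
    rw [this, c1, c2]
    simp only at hsym ⊢
    by_cases hh : IsSquare ((q : ℕ) : ZMod p)
    · rw [if_pos hh, if_pos (hsym.mp hh)]
    · rw [if_neg hh, if_neg (fun h => hh (hsym.mpr h)), mul_comm (ev p t ψ _ _)]

end Value

end Pool.Agent.Q202.RS
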