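import Pool.Agent.H180.RS.Stmts2
import Pool.Agent.H180.RS.Gs
import Pool.Agent.Q59.RL.FixLaw

/-!
# Nonempty closed sums of exotic classes are not fixed: arithmetic
-/

set_option autoImplicit false
set_option linter.unusedSectionVars false

namespace Pool.Agent.Q202.RS

open Finset NumberField Pool.Agent.H180.RS Pool.Agent.H916R2 Pool.Agent.Q59.FS Pool.Agent.Q59.RL

section Dir

lemma exists_crt (S : Finset ℕ) (hS : ∀ p ∈ S, p.Prime ∧ p ≠ 2) :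
    ∃ a : ℕ, a % 4 = 1 ∧ ∀ p ∈ S, ¬ IsSquare ((a : ℕ) : ZMod p) := by
  classical
  induction S using Finset.induction_on with
  | empty => exact ⟨1, rfl, fun p hp => absurd hp (Finset.notMem_empty p)⟩
  | insert p S hp ih =>
    obtain ⟨a, ha, hS'⟩ := ih fun q hq => hS q (mem_insert_of_mem hq)
    obtain ⟨hpp, hp2⟩ := hS p (mem_insert_self p S)
    have : Fact p.Prime := ⟨hpp⟩
    obtain ⟨n, hn⟩ := FiniteField.exists_nonsquare (F := ZMod p) (by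
      rw [ZMod.ringChar_zmod_n]; exact hp2)
    have hco : Nat.Coprime (4 * ∏ q ∈ S, q) p := by
      rw [Nat.coprime_comm, Nat.Prime.coprime_iff_not_dvd hpp]
      intro h
      rcases (Nat.Prime.dvd_mul hpp).mp h with h | h
      · have h4 : p ∣ 2 ^ 2 := by simpa using h
        have := (Nat.prime_dvd_prime_iff_eq hpp Nat.prime_two).mp (hpp.dvd_of_dvd_pow h4)
        exact hp2 this
      · obtain ⟨q, hq, hpq⟩ := (hpp.prime.dvd_finsetProd_iff _).mp h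
        have := (Nat.prime_dvd_prime_iff_eq hpp (hS q (mem_insert_of_mem hq)).1).mp hpq
        exact hp (this ▸ hq)
    obtain ⟨b, hb1, hb2⟩ := Nat.chineseRemainder hco a n.val
    refine ⟨b, ?_, ?_⟩
    · have h1 : b ≡ a [MOD 4] := hb1.of_dvd (Dvd.intro _ rfl)
      unfold Nat.ModEq at h1
      omega
    · intro q hq
      rcases mem_insert.mp hq with rfl | hq
      · rw [(ZMod.natCast_eq_natCast_iff _ _ _).mpr hb2, ZMod.natCast_zmod_val]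
        exact hn
      · have h1 : b ≡ a [MOD q] := hb1.of_dvd ((dvd_prod_of_mem _ hq).mul_left _)
        rw [(ZMod.natCast_eq_natCast_iff _ _ _).mpr h1]
        exact hS' q hq

/-- a prime modulo which the primes dividing `m` are not squares -/
lemma exists_t {m : ℕ} [NeZero m] (hodd : Odd m) : ∃ t : ℕ, t.Prime ∧ t % 4 = 1 ∧ ¬ t ∣ m ∧
    ∀ p ∈ m.primeFactors, ¬ IsSquare ((p : ℕ) : ZMod t) := by
  have hS : ∀ p ∈ m.primeFactors, p.Prime ∧ p ≠ 2 := by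
    intro p hp
    refine ⟨Nat.prime_of_mem_primeFactors hp, ?_⟩
    rintro rfl
    have := Nat.dvd_of_mem_primeFactors hp
    rw [← even_iff_two_dvd, ← Nat.not_odd_iff_even] at this
    exact this hodd
  obtain ⟨a, ha, hS'⟩ := exists_crt m.primeFactors hS
  have hm0 : m ≠ 0 := NeZero.ne m
  have : NeZero (4 * m) := ⟨by omega⟩
  have hco : Nat.Coprime a (4 * m) := by
    rw [Nat.coprime_iff_isRelPrime]
    by_contra hcon
    rw [← Nat.coprime_iff_isRelPrime, Nat.Prime.not_coprime_iff_dvd] at hcon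
    obtain ⟨p, hp, hpa, hpm⟩ := hcon
    rcases (Nat.Prime.dvd_mul hp).mp hpm with h | h
    · have h4 : p ∣ 2 ^ 2 := by simpa using h
      have h2 := (Nat.prime_dvd_prime_iff_eq hp Nat.prime_two).mp (hp.dvd_of_dvd_pow h4)
      subst h2
      omega
    · have h3 := hS' p (Nat.mem_primeFactors.mpr ⟨hp, h, hm0⟩)
      rw [(ZMod.natCast_eq_zero_iff _ _).mpr hpa] at h3
      exact h3 (IsSquare.zero)
  obtain ⟨t, htm, ht, htq⟩ := Nat.forall_exists_prime_gt_and_eq_mod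
    (a := (a : ZMod (4 * m))) ((ZMod.isUnit_iff_coprime a (4 * m)).mpr hco) m
  have hta : t ≡ a [MOD 4 * m] := (ZMod.natCast_eq_natCast_iff _ _ _).mp htq
  have ht4 : t % 4 = 1 := by
    have h1 : t ≡ a [MOD 4] := hta.of_dvd (Dvd.intro _ rfl)
    unfold Nat.ModEq at h1
    omega
  refine ⟨t, ht, ht4, ?_, ?_⟩
  · intro h
    have := Nat.le_of_dvd (Nat.pos_of_ne_zero hm0) h
    omega
  · intro p hp hsq
    have hpf : Fact p.Prime := ⟨(hS p hp).1⟩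
    have htf : Fact t.Prime := ⟨ht⟩
    have h1 := (ZMod.exists_sq_eq_prime_iff_of_mod_four_eq_one (p := t) (q := p) ht4 (hS p hp).2).mp hsq
    have h2 : t ≡ a [MOD p] := hta.of_dvd ((Nat.dvd_of_mem_primeFactors hp).mul_left _)
    rw [(ZMod.natCast_eq_natCast_iff _ _ _).mpr h2] at h1
    exact hS' p hp h1

end Dir

section St

lemma st_natAbs (p : ℕ) : (st p).natAbs = p := by
  unfold st
  split_ifs
  · exact Int.natAbs_natCast p
  · rw [Int.natAbs_neg, Int.natAbs_natCast]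

lemma st_mod {p : ℕ} (hp : p % 2 = 1) : st p % 4 = 1 := by
  unfold st
  split_ifs with h <;> omega

lemma dvd_st {r p : ℕ} : (r : ℤ) ∣ st p ↔ r ∣ p := by
  rw [← Int.natAbs_dvd_natAbs, st_natAbs, Int.natAbs_natCast]

lemma squarefree_st {p : ℕ} (hp : p.Prime) : Squarefree (st p) := by
  rw [← Int.squarefree_natAbs, st_natAbs]
  exact hp.prime.squarefree

lemma squarefree_st_mul {p t : ℕ} (hp : p.Prime) (ht : t.Prime) (h : p ≠ t) :
    Squarefree (st p * t) := by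
  rw [← Int.squarefree_natAbs, Int.natAbs_mul, st_natAbs, Int.natAbs_natCast,
    Nat.squarefree_mul ((Nat.coprime_primes hp ht).mpr h)]
  exact ⟨hp.prime.squarefree, ht.prime.squarefree⟩

end St

/-- the conic of a pair of primes -/
def Dat (t : ℕ) (e : ℕ × ℕ) (A D x y z : ℤ) : Prop := ∃ p q : ℕ, (e = (p, q) ∨ e = (q, p)) ∧
  q % 4 = 1 ∧ IsCoprime x y ∧ z ≠ 0 ∧
  ((IsSquare ((p : ℕ) : ZMod q) ∧ A = st p ∧ D = q ∧ x ^ 2 - st p * y ^ 2 = q * z ^ 2) ∨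
    (¬ IsSquare ((p : ℕ) : ZMod q) ∧ A = st p * t ∧ D = (q * t : ℕ) ∧
      x ^ 2 - (st p * t) * y ^ 2 = (q * t : ℕ) * z ^ 2))

/-- the conditions on the pair -/
structure Pr (t : ℕ) (e : ℕ × ℕ) : Prop where
  p1 : e.1.Prime
  p2 : e.2.Prime
  n1 : e.1 ≠ 2
  n2 : e.2 ≠ 2
  ne : e.1 ≠ e.2
  t1 : e.1 ≠ t
  t2 : e.2 ≠ t
  s1 : ¬ IsSquare ((e.1 : ℕ) : ZMod t)
  s2 : ¬ IsSquare ((e.2 : ℕ) : ZMod t)

lemma exists_dat (hcon : PropCon) {t : ℕ} (ht : t.Prime) (ht4 : t % 4 = 1) {e : ℕ × ℕ}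
    (he : Pr t e) (h4 : e.1 % 4 = 1 ∨ e.2 % 4 = 1) : ∃ A D x y z, Dat t e A D x y z := by
  have key : ∀ p q : ℕ, (e = (p, q) ∨ e = (q, p)) → p.Prime → q.Prime → p ≠ 2 → p ≠ q → p ≠ t →
      q ≠ t → ¬ IsSquare ((p : ℕ) : ZMod t) → ¬ IsSquare ((q : ℕ) : ZMod t) → q % 4 = 1 →
      ∃ A D x y z, Dat t e A D x y z := by
    intro p q hpq hp hq hp2 hne hpt hqt hsp hsq hq4
    by_cases hs : IsSquare ((p : ℕ) : ZMod q)
    · obtain ⟨x, y, z, h1, h2, h3⟩ := hcon.2.1 p q hp hq hp2 hne hq4 hs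
      exact ⟨_, _, x, y, z, p, q, hpq, hq4, h1, h2, Or.inl ⟨hs, rfl, rfl, h3⟩⟩
    · obtain ⟨x, y, z, h1, h2, h3⟩ := hcon.2.2 p q t hp hq ht hp2 hne hpt hqt hq4 ht4 hs hsp hsq
      exact ⟨_, _, x, y, z, p, q, hpq, hq4, h1, h2, Or.inr ⟨hs, rfl, rfl, h3⟩⟩
  rcases h4 with h | h
  · exact key e.2 e.1 (Or.inr rfl) he.p2 he.p1 he.n2 he.ne.symm he.t2 he.t1 he.s2 he.s1 h
  · exact key e.1 e.2 (Or.inl rfl) he.p1 he.p2 he.n1 he.ne he.t1 he.t2 he.s1 he.s2 h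

section Facts

variable {t : ℕ} {e : ℕ × ℕ} {A D x y z : ℤ}

lemma Dat.pq (h : Dat t e A D x y z) (he : Pr t e) : ∃ p q : ℕ, (e = (p, q) ∨ e = (q, p)) ∧
    p.Prime ∧ q.Prime ∧ p ≠ 2 ∧ p ≠ q ∧ p ≠ t ∧ q ≠ t ∧
    ¬ IsSquare ((p : ℕ) : ZMod t) ∧ ¬ IsSquare ((q : ℕ) : ZMod t) ∧
  q % 4 = 1 ∧ IsCoprime x y ∧ z ≠ 0 ∧
  ((IsSquare ((p : ℕ) : ZMod q) ∧ A = st p ∧ D = q ∧ x ^ 2 - st p * y ^ 2 = q * z ^ 2) ∨
    (¬ IsSquare ((p : ℕ) : ZMod q) ∧ A = st p * t ∧ D = (q * t : ℕ) ∧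
      x ^ 2 - (st p * t) * y ^ 2 = (q * t : ℕ) * z ^ 2)) := by
  obtain ⟨p, q, h1, h2⟩ := h
  refine ⟨p, q, h1, ?_⟩
  rcases h1 with rfl | rfl
  · exact ⟨he.p1, he.p2, he.n1, he.ne, he.t1, he.t2, he.s1, he.s2, h2⟩
  · exact ⟨he.p2, he.p1, he.n2, he.ne.symm, he.t2, he.t1, he.s2, he.s1, h2⟩

lemma Dat.hA (h : Dat t e A D x y z) (he : Pr t e) (ht : t.Prime) (ht4 : t % 4 = 1) :
    A % 4 = 1 ∧ Squarefree A := by
  obtain ⟨p, q, -, hp, hq, hp2, hne, hpt, hqt, -, -, hq4, -, -, h1⟩ := h.pq he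
  have hodd : p % 2 = 1 := hp.eq_two_or_odd.resolve_left hp2
  have hst := st_mod hodd
  rcases h1 with ⟨-, rfl, -, -⟩ | ⟨-, rfl, -, -⟩
  · exact ⟨hst, squarefree_st hp⟩
  · refine ⟨?_, squarefree_st_mul hp ht hpt⟩
    rw [Int.mul_emod, hst]
    omega

lemma Dat.hD (h : Dat t e A D x y z) (he : Pr t e) (ht : t.Prime) (ht4 : t % 4 = 1) :
    D % 4 = 1 ∧ Squarefree D := by
  obtain ⟨p, q, -, hp, hq, hp2, hne, hpt, hqt, -, -, hq4, -, -, h1⟩ := h.pq he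
  rcases h1 with ⟨-, -, rfl, -⟩ | ⟨-, -, rfl, -⟩
  · refine ⟨by omega, ?_⟩
    rw [← Int.squarefree_natAbs, Int.natAbs_natCast]
    exact hq.prime.squarefree
  · refine ⟨?_, ?_⟩
    · have : (q * t) % 4 = 1 := by rw [Nat.mul_mod, hq4, ht4]
      omega
    · rw [← Int.squarefree_natAbs, Int.natAbs_natCast,
        Nat.squarefree_mul ((Nat.coprime_primes hq ht).mpr hqt)]
      exact ⟨hq.prime.squarefree, ht.prime.squarefree⟩

lemma Dat.conic (h : Dat t e A D x y z) : x ^ 2 - A * y ^ 2 = D * z ^ 2 ∧ z ≠ 0 := by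
  obtain ⟨p, q, -, -, -, hz, h1⟩ := h
  refine ⟨?_, hz⟩
  rcases h1 with ⟨-, rfl, rfl, h2⟩ | ⟨-, rfl, rfl, h2⟩
  · exact h2
  · exact h2

lemma Dat.count (h : Dat t e A D x y z) (he : Pr t e) (hlt : e.1 < e.2) (ht : t.Prime)
    {f : ℕ × ℕ} (hf : Pr t f) (hflt : f.1 < f.2) :
    ((if (f.1 : ℤ) ∣ A ∧ (f.2 : ℤ) ∣ D then 1 else 0) +
    (if (f.2 : ℤ) ∣ A ∧ (f.1 : ℤ) ∣ D then 1 else 0) : ℕ) = if e = f then 1 else 0 := by
  obtain ⟨p, q, hpq, hp, hq, hp2, hne, hpt, hqt, -, -, hq4, -, -, h1⟩ := h.pq he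
  have dA : ∀ r : ℕ, r.Prime → r ≠ t → ((r : ℤ) ∣ A ↔ r = p) := by
    intro r hr hrt
    rcases h1 with ⟨-, rfl, -, -⟩ | ⟨-, rfl, -, -⟩
    · rw [dvd_st, Nat.prime_dvd_prime_iff_eq hr hp]
    · rw [← Int.natAbs_dvd_natAbs, Int.natAbs_mul, st_natAbs, Int.natAbs_natCast,
        Int.natAbs_natCast, Nat.Prime.dvd_mul hr, Nat.prime_dvd_prime_iff_eq hr hp,
        Nat.prime_dvd_prime_iff_eq hr ht]
      tauto
  have dD : ∀ r : ℕ, r.Prime → r ≠ t → ((r : ℤ) ∣ D ↔ r = q) := by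
    intro r hr hrt
    rcases h1 with ⟨-, -, rfl, -⟩ | ⟨-, -, rfl, -⟩
    · rw [Int.natCast_dvd_natCast, Nat.prime_dvd_prime_iff_eq hr hq]
    · rw [Int.natCast_dvd_natCast, Nat.Prime.dvd_mul hr, Nat.prime_dvd_prime_iff_eq hr hq,
        Nat.prime_dvd_prime_iff_eq hr ht]
      tauto
  simp only [dA _ hf.p1 hf.t1, dA _ hf.p2 hf.t2, dD _ hf.p1 hf.t1, dD _ hf.p2 hf.t2]
  obtain ⟨a, b⟩ := f
  rcases hpq with rfl | rfl
  · simp only at hlt hflt ⊢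
    rw [if_neg (c := b = p ∧ a = q) (by omega), add_zero]
    by_cases hh : a = p ∧ b = q
    · rw [if_pos hh, if_pos (by rw [hh.1, hh.2])]
    · rw [if_neg hh, if_neg]
      intro h3
      rw [Prod.mk.injEq] at h3
      exact hh ⟨h3.1.symm, h3.2.symm⟩
  · simp only at hlt hflt ⊢
    rw [if_neg (c := a = p ∧ b = q) (by omega), zero_add]
    by_cases hh : b = p ∧ a = q
    · rw [if_pos hh, if_pos (by rw [hh.1, hh.2])]
    · rw [if_neg hh, if_neg]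
      intro h3
      rw [Prod.mk.injEq] at h3
      exact hh ⟨h3.2.symm, h3.1.symm⟩

end Facts

end Pool.Agent.Q202.RS
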